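import Pool.Agent.Helper879.ECD.Final
import Pool.Agent.Helper590.Compat.Line

set_option autoImplicit false

/-! For every 2-connected cubic graph `G` (finite, loopless, parallel edges allowed) the line
graph `L(G)`, a 4-regular Eulerian graph, has two compatible circuit decompositions; the circuits
of the first one may be taken of even length.

Outline. `main` (Helper879) gives a decomposition `P` of `L(G)` into even circuits. By
`exists_half` (linear algebra over the field with two elements) every even circuit contains a
perfect matching of its vertex set; the union `M` of these matchings contains exactly two of the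
four edges at each vertex, one from each of the two circuits of `P` through the vertex. So `M` and
its complement are regular of degree two, and their components form a circuit decomposition `Q`.
A circuit of `P` and a circuit of `Q` never share two edges at a vertex, because the two edges of
a circuit of `P` at a vertex lie one in `M` and one outside `M`. -/

namespace Pool.Agent.Results.MP_6d4c99_co.LineGraphCompatible

open Pool.Agent.Helper879.ECD Pool.Agent.Helper590.Compat

/-- The hypotheses are satisfiable: two vertices joined by three parallel edges. -/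
theorem theta_ok : ∃ G : MGraph (Fin 2) (Fin 3), G.IsCubic ∧ G.TwoConnected := by
  refine ⟨⟨fun _ => s(0, 1), ?_⟩, ?_, ?_, ?_⟩
  · intro e
    rw [Sym2.mk_isDiag_iff]
    decide
  · intro v
    have : {e : Fin 3 | v ∈ s((0 : Fin 2), 1)} = Set.univ := by
      ext e
      simp only [Set.mem_ofPred_eq, Set.mem_univ, iff_true, Sym2.mem_iff]
      fin_cases v <;> simp
    show {e : Fin 3 | v ∈ s((0 : Fin 2), 1)}.ncard = 3
    rw [this, Set.ncard_univ]
    simp
  · intro x y
    fin_cases x <;> fin_cases y
    · exact Relation.ReflTransGen.refl
    · exact Relation.ReflTransGen.single ⟨0, rfl⟩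
    · exact Relation.ReflTransGen.single ⟨0, Sym2.eq_swap⟩
    · exact Relation.ReflTransGen.refl
  · intro w x y hx hy
    have : x = y := by
      revert w x y
      decide
    rw [this]

/-- The line graph of every 2-connected cubic graph has two compatible circuit decompositions
`P` and `Q`, and all circuits of `P` have even length. -/
theorem result (V E : Type) [Finite V] [Finite E] (G : MGraph V E) (hcubic : G.IsCubic)
    (h2 : G.TwoConnected) :
    ∃ P Q : Set (Set G.LineEdge), Setoid.IsPartition P ∧ Setoid.IsPartition Q ∧
      (∀ D ∈ P, G.lineGraph.IsCircuit D ∧ Even D.ncard) ∧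
      (∀ D ∈ Q, G.lineGraph.IsCircuit D) ∧
      ∀ v, ∀ D ∈ P, ∀ D' ∈ Q, {p | p ∈ D ∧ p ∈ D' ∧ v ∈ G.lineGraph.ends p}.ncard ≤ 1 := by
  have hfin : Finite G.LineEdge :=
    inferInstanceAs (Finite {p : V × Sym2 E // ¬ p.2.IsDiag ∧ ∀ e ∈ p.2, p.1 ∈ G.ends e})
  obtain ⟨P, hP, hPc⟩ := main G hcubic h2
  obtain ⟨Q, hQ, hQc, hPQ⟩ := exists_compatible G.lineGraph (line_deg G hcubic) P hP hPc
  exact ⟨P, Q, hP, hQ, hPc, hQc, hPQ⟩

end Pool.Agent.Results.MP_6d4c99_co.LineGraphCompatible
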